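import Pool.Agent.Keisler.Main

/-!
# MP_6564ad_lc: the theories `T_{n,k}` are not pairwise incomparable in Keisler's order

For `k < n ≤ n'` the theory `T_{n,k}` of the generic `(n+1)`-clique free `(k+1)`-uniform
hypergraph is below `T_{n',k}` in Keisler's order.  In particular `T_{3,2} ⊴ T_{4,2}`, so the
conjecture that any two different theories `T_{n,k}`, `T_{n',k'}` are incomparable fails.

Idea: let `a` be one point.  In a model of `T_{n+1,k}` the relation
`every (k+1)-subset of {x_0, ..., x_k, a} is an edge` defines a hypergraph without cliques on
`n + 1` points.  Given a type over few parameters in a regular ultrapower of a model `N` of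
`T_{n,k}`, the finite set of parameters which is active at an index is embedded, together with a
new point all of whose sets are edges, into a model of `T_{n+1,k}`; the translated type is
realized there, and the pattern of the realization is pulled back index by index.
-/

universe u

open Pool.Agent.Keisler

namespace Pool.Agent.Results.MP_6564ad_lc.KeislerChains

/-- The theories `T_{n,k}` (`n > k ≥ 2`) are not pairwise incomparable in Keisler's order: they
exist, and `T_{n,k} ⊴ T_{n',k}` whenever `k < n ≤ n'`. -/
theorem result :
    ¬ PairwiseIncomparable.{u} ∧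
    (∀ n k : ℕ, 2 ≤ k → k < n → ∃ T, IsModelCompletion.{u} (hypTheory n k) T) ∧
    (∀ n n' k : ℕ, 2 ≤ k → k < n → n ≤ n' → ∀ T T' : (hypLang k).Theory,
      IsModelCompletion.{u} (hypTheory n k) T → IsModelCompletion.{u} (hypTheory n' k) T' →
        KeislerLE.{u} T T') := by
  refine ⟨?_, ?_, ?_⟩
  · intro h
    have h3 := isModelCompletion_genTheory.{u} (n := 3) (k := 2) (by omega) (by omega)
    have h4 := isModelCompletion_genTheory.{u} (n := 4) (k := 2) (by omega) (by omega)
    exact (h 3 2 4 2 (le_refl 2) (by omega) (le_refl 2) (by omega) (by simp)
      _ _ h3 h4).1 (keislerLE_of_le (by omega) (by omega) (by omega) h3 h4)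
  · intro n k hk hkn
    exact ⟨_, isModelCompletion_genTheory (by omega) (by omega)⟩
  · intro n n' k hk hkn hnn T T' hT hT'
    exact keislerLE_of_le (by omega) (by omega) hnn hT hT'

end Pool.Agent.Results.MP_6564ad_lc.KeislerChains
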